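import Pool.Agent.H73.LPC.Stmts

set_option autoImplicit false

open Set Filter Topology MeasureTheory Metric

namespace Pool.LPC

open Pool.PHS

theorem ASM_thm (h1 : LIMStmt) (h2 : FIGStmt) (h3 : CNNStmt) (h4 : HEXStmt) (h5 : LIXStmt)
    (h6 : RKEStmt) (h7 : RKCStmt) (h8 : CORStmt) (h9 : ITPStmt) (h10 : GEOStmt) : ASMStmt := by
  intro n D f g k hDo hDc hDb hf hk hlim hgD hrank φ hφ hφ0 hφ1 z w hz hw
  obtain ⟨δ, Q, hδ, hδ1, hφd, hQ, hQD, hmap⟩ := h2 n D φ hDo hφ hφ0 hφ1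
  obtain ⟨M, hM⟩ := hDb.exists_norm_le
  have hit : ∀ j, ProperSelf D (f^[k j]) := fun j => h9 n D f hf (k j)
  obtain ⟨hgd, hgl⟩ := h1 n D atTop (fun j => f^[k j]) g M inferInstance hDo
    (fun j => (hit j).hol) (fun j z hz => hM _ ((hit j).maps hz)) hlim
  obtain ⟨hBO, hBc, hHO, hHc, hHne, hHB⟩ := h3 δ hδ hδ1
  have hδ2 : 0 < δ / 2 := by linarith
  have hδ21 : δ / 2 < 1 := by linarith
  obtain ⟨hBO2, hBc2, hHO2, hHc2, hHne2, hHB2⟩ := h3 (δ / 2) hδ2 hδ21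
  have hHsub : HF (δ / 2) ⊆ HF δ := by
    rintro p ⟨ha, hb, hc⟩
    refine ⟨by linarith, by linarith, ?_⟩
    rcases hc with hc | hc
    · left; linarith
    · right; linarith
  have hBsub : BD (δ / 2) ⊆ BD δ := by
    rintro p ⟨ha, hb⟩
    exact ⟨by linarith, by linarith⟩
  have hFex : ∀ j, ∃ G : ℂ × ℂ → Cn n, DifferentiableOn ℂ G (BD (δ / 2)) ∧
      EqOn G (fun p => f^[k j] (φ p)) (HF (δ / 2)) := fun j =>
    h4 n δ (fun p => f^[k j] (φ p)) hδ hδ1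
      ((hit j).hol.comp (hφd.mono hHB) (fun p hp => hQD (hmap hp)))
  choose F hFd hFe using hFex
  have hunifQ : TendstoUniformlyOn (fun j => f^[k j]) g atTop Q :=
    (tendstoLocallyUniformlyOn_iff_forall_isCompact hDo).1 hgl Q hQD hQ
  have hunifH : TendstoUniformlyOn F (fun p => g (φ p)) atTop (HF (δ / 2)) := by
    have h := hunifQ.comp φ
    have h' := h.mono (show HF (δ / 2) ⊆ φ ⁻¹' Q from fun p hp => hmap (hHsub hp))
    exact h'.congr (Eventually.of_forall fun j => (fun p hp => (hFe j hp).symm))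
  obtain ⟨G, hGd, hGl, hGe⟩ := h5 n (δ / 2) F (fun p => g (φ p)) hδ2 hδ21 hFd hunifH
  have hR1 : RankOne G (HF (δ / 2)) :=
    h7 n D (HF (δ / 2)) g φ G hDo hHO2 hgd (hφd.mono (hHsub.trans hHB))
      (fun p hp => hQD (hmap (hHsub hp))) (fun p hp => hGe hp) hrank
  have hR2 : RankOne G (BD (δ / 2)) := h6 n (δ / 2) G hδ2 hδ21 hGd hR1
  have hC := h8 n (δ / 2) G hδ2 hδ21 hGd hR2
  have hGQ : MapsTo G (BD (δ / 2)) (g '' Q) := by
    intro p hp
    obtain ⟨q, hq, hqe⟩ := hC ⟨p, hp, rfl⟩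
    rw [← hqe, hGe hq]
    exact ⟨φ q, hmap (hHsub hq), rfl⟩
  have hgQ : IsCompact (g '' Q) := hQ.image_of_continuousOn (hgd.continuousOn.mono hQD)
  have hgQD : g '' Q ⊆ D := by
    rintro _ ⟨q, hq, rfl⟩
    exact hgD (hQD hq)
  obtain ⟨ε, hε, hth⟩ := hgQ.exists_thickening_subset_open hDo hgQD
  have hev := Metric.tendstoUniformlyOn_iff.1 hGl ε hε
  obtain ⟨j, hj⟩ := hev.exists
  have hFD : MapsTo (F j) (BD (δ / 2)) D := by
    intro p hp
    apply hth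
    rw [mem_thickening_iff]
    exact ⟨G p, hGQ hp, by rw [dist_comm]; exact hj p hp⟩
  have hφD := h10 n D (f^[k j]) (δ / 2) φ (F j) hDo (hit j) hδ2 hδ21 (hφd.mono hBsub) (hFd j)
    (fun p hp => hQD (hmap (hHsub hp))) (fun p hp => hFe j hp) hFD
  exact hφD (show ((z, w) : ℂ × ℂ) ∈ BD (δ / 2) from
    ⟨by show ‖z‖ < 1 + δ / 2; linarith, by show ‖w‖ < 1 + δ / 2; linarith⟩)

end Pool.LPC
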