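import Pool.Agent.H73.LPC.Stmts

set_option autoImplicit false

open Set Filter Topology MeasureTheory Metric

namespace Pool.LPC

open Pool.PHS

theorem COR_thm (h1 : LOCStmt) : CORStmt := by
  intro n δ G hδ hδ1 hG hR y hy
  by_contra hno
  obtain ⟨⟨z₁, w₁⟩, hp1, hp2⟩ := hy
  have hBO : IsOpen (BD δ) := by
    have h1 : IsOpen {p : ℂ × ℂ | ‖p.1‖ < 1 + δ} := isOpen_lt (by fun_prop) (by fun_prop)
    have h2 : IsOpen {p : ℂ × ℂ | ‖p.2‖ < 1 + δ} := isOpen_lt (by fun_prop) (by fun_prop)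
    exact h1.inter h2
  have hno' : ∀ z w : ℂ, ‖z‖ < 1 + δ → ‖w‖ < 1 + δ → (‖w‖ < δ ∨ 1 - δ < ‖z‖) → G (z, w) ≠ y := by
    intro z w hz hw h he
    exact hno ⟨(z, w), ⟨hz, hw, h⟩, he⟩
  let W : Set ℂ := {w | ‖w‖ < 1 + δ ∧ ∃ z, ‖z‖ < 1 + δ ∧ G (z, w) = y}
  have hWo : IsOpen W := by
    rw [isOpen_iff_mem_nhds]
    rintro w₀ ⟨hw0, z₀, hz0, he⟩
    have hnc : ¬ ∀ᶠ z in 𝓝 z₀, G (z, w₀) = G (z₀, w₀) := by
      intro hev
      have hd : DifferentiableOn ℂ (fun z : ℂ => G (z, w₀)) (ball (0 : ℂ) (1 + δ)) := by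
        have hm : MapsTo (fun z : ℂ => (z, w₀)) (ball (0 : ℂ) (1 + δ)) (BD δ) := by
          intro z hz
          exact ⟨by simpa using hz, hw0⟩
        have hpd : DifferentiableOn ℂ (fun z : ℂ => (z, w₀)) (ball (0 : ℂ) (1 + δ)) :=
          differentiableOn_id.prodMk (differentiableOn_const _)
        exact hG.comp hpd hm
      have ha : AnalyticOnNhd ℂ (fun z : ℂ => G (z, w₀)) (ball (0 : ℂ) (1 + δ)) :=
        hd.analyticOnNhd isOpen_ball
      have hc : AnalyticOnNhd ℂ (fun _ : ℂ => y) (ball (0 : ℂ) (1 + δ)) := analyticOnNhd_const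
      have hE := ha.eqOn_of_preconnected_of_eventuallyEq hc (convex_ball _ _).isPreconnected
        (show z₀ ∈ ball (0:ℂ) (1 + δ) by simpa using hz0)
        (by filter_upwards [hev] with z hz; rw [hz, he])
      have h1m : (1 : ℂ) ∈ ball (0 : ℂ) (1 + δ) := by simp [hδ]
      exact hno' 1 w₀ (by simp [hδ]) hw0 (Or.inr (by simp [hδ])) (hE h1m)
    have hloc := h1 n (BD δ) G z₀ w₀ hBO ⟨hz0, hw0⟩ hG hR hnc
    filter_upwards [hloc] with w hw
    obtain ⟨z, hz, hz2⟩ := hw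
    exact ⟨hz.2, z, hz.1, hz2.trans he⟩
  have hWne : (ball (0 : ℂ) (1 + δ) ∩ W).Nonempty :=
    ⟨w₁, by simpa using hp1.2, hp1.2, z₁, hp1.1, hp2⟩
  have hWc : closure W ∩ ball (0 : ℂ) (1 + δ) ⊆ W := by
    rintro w ⟨hwc, hwb⟩
    have hwb' : ‖w‖ < 1 + δ := by simpa using hwb
    rw [mem_closure_iff_seq_limit] at hwc
    obtain ⟨x, hx, hlim⟩ := hwc
    choose hx1 z hz1 hz2 using hx
    have hzc : ∀ i, z i ∈ closedBall (0 : ℂ) (1 - δ) := by
      intro i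
      by_contra hcon
      have : 1 - δ < ‖z i‖ := by simpa using hcon
      exact hno' (z i) (x i) (hz1 i) (hx1 i) (Or.inr this) (hz2 i)
    obtain ⟨a, ha, φ, hφ, hlim2⟩ := (isCompact_closedBall (0 : ℂ) (1 - δ)).tendsto_subseq hzc
    have ha' : ‖a‖ < 1 + δ := by
      have := mem_closedBall_zero_iff.1 ha
      linarith
    have haw : (a, w) ∈ BD δ := ⟨ha', hwb'⟩
    refine ⟨hwb', a, ha', ?_⟩
    have hcont : ContinuousAt G (a, w) := hG.continuousOn.continuousAt (hBO.mem_nhds haw)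
    have hl3 : Tendsto (fun i => ((z ∘ φ) i, x (φ i))) atTop (𝓝 (a, w)) :=
      hlim2.prodMk_nhds (hlim.comp hφ.tendsto_atTop)
    have hl4 := hcont.tendsto.comp hl3
    have hl5 : Tendsto (fun _ : ℕ => y) atTop (𝓝 (G (a, w))) := by
      refine hl4.congr fun i => ?_
      exact hz2 (φ i)
    exact tendsto_nhds_unique hl5 tendsto_const_nhds
  have hsub := (convex_ball (0 : ℂ) (1 + δ)).isPreconnected.subset_of_closure_inter_subset
    hWo hWne hWc
  have h0 : (0 : ℂ) ∈ ball (0 : ℂ) (1 + δ) := mem_ball_self (by linarith)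
  obtain ⟨_, z, hz, hz2⟩ := hsub h0
  exact hno' z 0 hz (by rw [norm_zero]; linarith) (Or.inl (by rw [norm_zero]; exact hδ)) hz2

end Pool.LPC
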